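import Mathlib

/-!
# The hyperplane integral condition does not characterise the normal density

For every `n` there are probability densities `f`, `g` with `g > 0` such that
`∫ u g(u) ∏ f (x_j - u) du = 0` on the hyperplane `∑ x_j = 0`, while `f` is not normal.
Here `f` is a Gaussian density times a positive continuous `1`-periodic function, and `g` is
balanced along the classes modulo `1`.
-/

namespace Pool.Agent.Results.MP_d643ae_pr.NotNormal

open MeasureTheory Set Real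

/-- The involution exchanging `[k, k+1)` and `[-k-1, -k)` by translation. -/
noncomputable def T (x : ℝ) : ℝ := x - 2 * (⌊x⌋ : ℝ) - 1

lemma T_of_mem {x : ℝ} {k : ℤ} (h : x ∈ Ico (k : ℝ) (k + 1)) : T x = x - 2 * k - 1 := by
  have : ⌊x⌋ = k := Int.floor_eq_iff.2 ⟨h.1, h.2⟩
  rw [T, this]

lemma T_mem {x : ℝ} {k : ℤ} (h : x ∈ Ico (k : ℝ) (k + 1)) :
    T x ∈ Ico ((-k - 1 : ℤ) : ℝ) (((-k - 1 : ℤ) : ℝ) + 1) := by
  rw [T_of_mem h]
  push_cast
  constructor
  · linarith [h.1]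
  · linarith [h.2]

lemma mem_floor (x : ℝ) : x ∈ Ico (⌊x⌋ : ℝ) (⌊x⌋ + 1) := ⟨Int.floor_le x, Int.lt_floor_add_one x⟩

lemma T_T (x : ℝ) : T (T x) = x := by
  have h := mem_floor x
  rw [T_of_mem (T_mem h), T_of_mem h]
  push_cast
  ring

lemma measurable_T : Measurable T := by
  unfold T
  exact (measurable_id.sub ((measurable_from_top.comp Int.measurable_floor).const_mul 2)).sub_const 1

lemma measure_split (s : Set ℝ) (hs : MeasurableSet s) :
    volume s = ∑' k : ℤ, volume (s ∩ Ico (k : ℝ) (k + 1)) := by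
  rw [← measure_iUnion]
  · rw [← inter_iUnion, iUnion_Ico_intCast, inter_univ]
  · intro i j hij
    have := pairwise_disjoint_Ico_intCast ℝ hij
    exact this.mono inter_subset_right inter_subset_right
  · intro k
    exact hs.inter measurableSet_Ico

lemma mp_T : MeasurePreserving T volume volume := by
  refine ⟨measurable_T, ?_⟩
  ext s hs
  rw [Measure.map_apply measurable_T hs, measure_split _ (measurable_T hs), measure_split s hs]
  set e : ℤ ≃ ℤ := ⟨fun k => -k - 1, fun k => -k - 1, fun k => by ring, fun k => by ring⟩ with he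
  rw [← e.tsum_eq (fun k : ℤ => volume (s ∩ Ico (k : ℝ) (k + 1)))]
  congr 1
  funext k
  have h : T ⁻¹' s ∩ Ico (k : ℝ) (k + 1)
      = (fun x : ℝ => x + (-2 * k - 1)) ⁻¹' (s ∩ Ico ((e k : ℤ) : ℝ) ((e k : ℤ) + 1)) := by
    ext x
    simp only [mem_inter_iff, mem_preimage, he, Equiv.coe_fn_mk]
    constructor
    · rintro ⟨h1, h2⟩
      have h3 := T_of_mem h2
      have h4 := T_mem h2
      have e1 : x + (-2 * k - 1) = T x := by rw [h3]; ring
      rw [e1]
      exact ⟨h1, h4⟩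
    · rintro ⟨h1, h2⟩
      have h3 : x ∈ Ico (k : ℝ) (k + 1) := by
        push_cast at h2
        constructor
        · linarith [h2.1]
        · linarith [h2.2]
      have e1 : x + (-2 * k - 1) = T x := by rw [T_of_mem h3]; ring
      rw [e1] at h1
      exact ⟨h1, h3⟩
  rw [h, measure_preimage_add_right]

/-- `x` and `T x` have opposite signs. -/
lemma mul_abs_T (x : ℝ) : x * |T x| = -(T x * |x|) := by
  have h := mem_floor x
  have hT := T_of_mem h
  rcases le_or_gt 0 ⌊x⌋ with h0 | h0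
  · have h1 : (0 : ℝ) ≤ (⌊x⌋ : ℝ) := by exact_mod_cast h0
    have hx : 0 ≤ x := h1.trans h.1
    have hTx : T x ≤ 0 := by rw [hT]; linarith [h.2]
    rw [abs_of_nonneg hx, abs_of_nonpos hTx]; ring
  · have h1 : (⌊x⌋ : ℝ) ≤ -1 := by
      have : ⌊x⌋ ≤ -1 := by omega
      exact_mod_cast this
    have hx : x ≤ 0 := by linarith [h.2]
    have hTx : 0 ≤ T x := by rw [hT]; linarith [h.1]
    rw [abs_of_nonpos hx, abs_of_nonneg hTx]; ring

/-- The periodic factor. -/
noncomputable def p (x : ℝ) : ℝ := 2 + cos (2 * π * x)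

lemma p_ge (x : ℝ) : 1 ≤ p x := by unfold p; linarith [neg_one_le_cos (2 * π * x)]
lemma p_le (x : ℝ) : p x ≤ 3 := by unfold p; linarith [cos_le_one (2 * π * x)]
lemma p_cont : Continuous p := by unfold p; fun_prop

lemma p_sub_T (x u : ℝ) : p (x - T u) = p (x - u) := by
  unfold p T
  have : 2 * π * (x - (u - 2 * (⌊u⌋ : ℝ) - 1))
      = 2 * π * (x - u) + ((2 * ⌊u⌋ + 1 : ℤ) : ℝ) * (2 * π) := by
    push_cast; ring
  rw [this, cos_add_int_mul_two_pi]

/-- The unnormalised density `f`. -/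
noncomputable def fRaw (x : ℝ) : ℝ := p x * exp (-(x ^ 2) / 2)

open scoped Classical in
/-- The unnormalised density `g`. -/
noncomputable def gRaw (n : ℕ) (u : ℝ) : ℝ :=
  (|T u| + if u = -1 then 1 else 0) * exp (-(n : ℝ) * (u ^ 2 / 2 + (T u) ^ 2))

lemma fRaw_pos (x : ℝ) : 0 < fRaw x := mul_pos (by linarith [p_ge x]) (exp_pos _)

lemma gRaw_pos (n : ℕ) (u : ℝ) : 0 < gRaw n u := by
  unfold gRaw
  refine mul_pos ?_ (exp_pos _)
  split_ifs with h
  · positivity
  · rw [add_zero, abs_pos]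
    intro h0
    apply h
    have := T_T u
    rw [h0] at this
    rw [← this]
    simp [T]

lemma integrable_gauss {b : ℝ} (hb : 0 < b) : Integrable fun x : ℝ => exp (-b * x ^ 2) :=
  integrable_exp_neg_mul_sq hb

lemma integrable_fRaw : Integrable fRaw := by
  have h : Integrable fun x : ℝ => 3 * exp (-(1 / 2) * x ^ 2) :=
    (integrable_gauss (by norm_num)).const_mul 3
  refine h.mono' ?_ (Filter.Eventually.of_forall fun x => ?_)
  · unfold fRaw
    exact (p_cont.mul (by fun_prop)).aestronglyMeasurable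
  · rw [Real.norm_eq_abs, abs_of_pos (fRaw_pos x), fRaw]
    have : -(x ^ 2) / 2 = -(1 / 2) * x ^ 2 := by ring
    rw [this]
    exact mul_le_mul_of_nonneg_right (p_le x) (exp_pos _).le

lemma measurable_gRaw (n : ℕ) : Measurable (gRaw n) := by
  unfold gRaw
  have h1 : Measurable fun u : ℝ => |T u| := continuous_abs.measurable.comp measurable_T
  have h2 : Measurable fun u : ℝ => (if u = -1 then (1 : ℝ) else 0) :=
    Measurable.ite (measurableSet_singleton _) measurable_const measurable_const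
  have h3 : Measurable fun u : ℝ => exp (-(n : ℝ) * (u ^ 2 / 2 + (T u) ^ 2)) :=
    measurable_exp.comp ((((measurable_id.pow_const 2).div_const 2).add
      (measurable_T.pow_const 2)).const_mul _)
  exact (h1.add h2).mul h3

lemma abs_mul_exp_le (n : ℕ) (hn : 1 ≤ n) (t : ℝ) : |t| * exp (-(n : ℝ) * t ^ 2) ≤ 1 := by
  have hn' : (1 : ℝ) ≤ n := by exact_mod_cast hn
  have h1 : exp (-(n : ℝ) * t ^ 2) ≤ exp (-(t ^ 2)) := by
    apply exp_le_exp.2; nlinarith [sq_nonneg t]
  have h2 : |t| ≤ exp (t ^ 2) := by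
    have := add_one_le_exp (t ^ 2)
    nlinarith [sq_abs t, sq_nonneg (|t| - 1)]
  calc |t| * exp (-(n : ℝ) * t ^ 2) ≤ exp (t ^ 2) * exp (-(t ^ 2)) := by gcongr
    _ = 1 := by rw [← exp_add]; simp

lemma gRaw_le (n : ℕ) (hn : 1 ≤ n) (u : ℝ) : gRaw n u ≤ 2 * exp (-(n / 2 : ℝ) * u ^ 2) := by
  unfold gRaw
  have e : exp (-(n : ℝ) * (u ^ 2 / 2 + (T u) ^ 2))
      = exp (-(n : ℝ) * (T u) ^ 2) * exp (-(n / 2 : ℝ) * u ^ 2) := by
    rw [← exp_add]; congr 1; ring
  rw [e, ← mul_assoc]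
  refine mul_le_mul_of_nonneg_right ?_ (exp_pos _).le
  rw [add_mul]
  have h1 := abs_mul_exp_le n hn (T u)
  have h2 : (if u = -1 then (1 : ℝ) else 0) * exp (-(n : ℝ) * (T u) ^ 2) ≤ 1 := by
    have h3 : exp (-(n : ℝ) * (T u) ^ 2) ≤ 1 := by
      rw [exp_le_one_iff]
      have : (0 : ℝ) ≤ n := Nat.cast_nonneg n
      nlinarith [sq_nonneg (T u)]
    split_ifs
    · simpa using h3
    · simp
  linarith

lemma integrable_gRaw (n : ℕ) (hn : 1 ≤ n) : Integrable (gRaw n) := by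
  have hn' : (1 : ℝ) ≤ n := by exact_mod_cast hn
  have h : Integrable fun x : ℝ => 2 * exp (-(n / 2 : ℝ) * x ^ 2) :=
    (integrable_gauss (by linarith)).const_mul 2
  refine h.mono' (measurable_gRaw n).aestronglyMeasurable (Filter.Eventually.of_forall fun x => ?_)
  rw [Real.norm_eq_abs, abs_of_pos (gRaw_pos n x)]
  exact gRaw_le n hn x

lemma pos_integral {h : ℝ → ℝ} (hpos : ∀ x, 0 < h x) (hi : Integrable h) : 0 < ∫ x, h x := by
  rw [integral_pos_iff_support_of_nonneg (fun x => (hpos x).le) hi]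
  have : Function.support h = univ := by
    ext x; simp [(hpos x).ne']
  rw [this]
  simp

/-- The integrand of the hyperplane condition, before normalisation. -/
lemma integrand_eq (n : ℕ) (x : Fin n → ℝ) (hx : ∑ j, x j = 0) (u : ℝ) :
    u * gRaw n u * ∏ j, fRaw (x j - u)
      = (exp (-(∑ j, x j ^ 2) / 2)) * (u * (|T u| + open scoped Classical in if u = -1 then 1 else 0)
        * exp (-(n : ℝ) * (u ^ 2 + (T u) ^ 2)) * ∏ j, p (x j - u)) := by
  classical
  have h1 : ∏ j, fRaw (x j - u) = (∏ j, p (x j - u)) * exp (-(∑ j, x j ^ 2) / 2 - n * u ^ 2 / 2) := by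
    unfold fRaw
    rw [Finset.prod_mul_distrib, ← exp_sum]
    congr 2
    have h2 : ∀ j, -((x j - u) ^ 2) / 2 = -(x j ^ 2) / 2 + u * x j - u ^ 2 / 2 := fun j => by ring
    simp only [h2, Finset.sum_sub_distrib, Finset.sum_add_distrib, ← Finset.mul_sum, hx,
      Finset.sum_const, Finset.card_univ, Fintype.card_fin, nsmul_eq_mul, mul_zero, add_zero,
      ← Finset.sum_div, Finset.sum_neg_distrib]
    ring
  rw [h1]
  unfold gRaw
  have h3 : exp (-(∑ j, x j ^ 2) / 2 - n * u ^ 2 / 2) * exp (-(n : ℝ) * (u ^ 2 / 2 + (T u) ^ 2))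
      = exp (-(∑ j, x j ^ 2) / 2) * exp (-(n : ℝ) * (u ^ 2 + (T u) ^ 2)) := by
    rw [← exp_add, ← exp_add]; congr 1; ring
  calc _ = u * (|T u| + if u = -1 then 1 else 0) * (∏ j, p (x j - u))
        * (exp (-(∑ j, x j ^ 2) / 2 - n * u ^ 2 / 2)
          * exp (-(n : ℝ) * (u ^ 2 / 2 + (T u) ^ 2))) := by ring
    _ = _ := by rw [h3]; ring

/-- The antisymmetric part of the integrand has integral zero. -/
lemma core_zero (n : ℕ) (hn : 1 ≤ n) (x : Fin n → ℝ) :
    Integrable (fun u : ℝ => u * |T u| * exp (-(n : ℝ) * (u ^ 2 + (T u) ^ 2))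
      * ∏ j, p (x j - u)) ∧
    ∫ u : ℝ, u * |T u| * exp (-(n : ℝ) * (u ^ 2 + (T u) ^ 2)) * ∏ j, p (x j - u) = 0 := by
  have hn' : (1 : ℝ) ≤ n := by exact_mod_cast hn
  set k : ℝ → ℝ := fun u => u * |T u| * exp (-(n : ℝ) * (u ^ 2 + (T u) ^ 2)) * ∏ j, p (x j - u)
    with hk
  have hm : Measurable k := by
    have h1 : Measurable fun u : ℝ => |T u| := continuous_abs.measurable.comp measurable_T
    have h3 : Measurable fun u : ℝ => exp (-(n : ℝ) * (u ^ 2 + (T u) ^ 2)) :=
      measurable_exp.comp (((measurable_id.pow_const 2).add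
        (measurable_T.pow_const 2)).const_mul _)
    have h4 : Continuous fun u : ℝ => ∏ j, p (x j - u) :=
      continuous_finsetProd _ fun j _ => p_cont.comp (continuous_const.sub continuous_id)
    exact ((measurable_id.mul h1).mul h3).mul h4.measurable
  have hprod : ∀ u : ℝ, |∏ j, p (x j - u)| ≤ 3 ^ n := by
    intro u
    rw [Finset.abs_prod]
    calc ∏ j, |p (x j - u)| ≤ ∏ _j : Fin n, (3 : ℝ) :=
          Finset.prod_le_prod (fun j _ => abs_nonneg _) fun j _ => by
            rw [abs_of_pos (by linarith [p_ge (x j - u)])]; exact p_le _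
      _ = 3 ^ n := by simp
  have hint : Integrable k := by
    have h0 : Integrable fun u : ℝ => |u * exp (-(n : ℝ) * u ^ 2)| * 3 ^ n :=
      ((integrable_mul_exp_neg_mul_sq (by linarith)).abs).mul_const _
    refine h0.mono' hm.aestronglyMeasurable (Filter.Eventually.of_forall fun u => ?_)
    have e : exp (-(n : ℝ) * (u ^ 2 + (T u) ^ 2))
        = exp (-(n : ℝ) * u ^ 2) * exp (-(n : ℝ) * (T u) ^ 2) := by
      rw [← exp_add]; congr 1; ring
    rw [Real.norm_eq_abs, hk]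
    simp only
    rw [abs_mul, abs_mul, abs_mul, abs_mul, abs_abs, e, abs_mul, abs_of_pos (exp_pos _),
      abs_of_pos (exp_pos _)]
    have h1 := abs_mul_exp_le n hn (T u)
    have h2 := hprod u
    have h3 : 0 ≤ |u| * exp (-(n : ℝ) * u ^ 2) := mul_nonneg (abs_nonneg _) (exp_pos _).le
    calc |u| * |T u| * (exp (-(n : ℝ) * u ^ 2) * exp (-(n : ℝ) * (T u) ^ 2))
          * |∏ j, p (x j - u)|
        = (|u| * exp (-(n : ℝ) * u ^ 2)) * (|T u| * exp (-(n : ℝ) * (T u) ^ 2))
          * |∏ j, p (x j - u)| := by ring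
      _ ≤ (|u| * exp (-(n : ℝ) * u ^ 2)) * 1 * 3 ^ n := by gcongr
      _ = _ := by ring
  refine ⟨hint, ?_⟩
  have hanti : ∀ u, k (T u) = - k u := by
    intro u
    simp only [hk]
    rw [T_T]
    have h1 : T u * |u| = -(u * |T u|) := by rw [mul_abs_T]; ring
    have h2 : ∏ j, p (x j - T u) = ∏ j, p (x j - u) :=
      Finset.prod_congr rfl fun j _ => p_sub_T (x j) u
    rw [h1, h2]
    have h3 : (T u) ^ 2 + u ^ 2 = u ^ 2 + (T u) ^ 2 := by ring
    rw [h3]
    ring
  have h1 : ∫ u, k (T u) = ∫ u, k u := by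
    have := integral_map (μ := volume) (φ := T) measurable_T.aemeasurable
      (f := k) (hm.aestronglyMeasurable)
    rw [mp_T.map_eq] at this
    exact this.symm
  have h2 : ∫ u, k (T u) = - ∫ u, k u := by
    rw [← integral_neg]
    exact integral_congr_ae (Filter.Eventually.of_forall hanti)
  have h3 : ∫ u, k u = 0 := by linarith
  exact h3

lemma hyperplane_zero (n : ℕ) (hn : 1 ≤ n) (x : Fin n → ℝ) (hx : ∑ j, x j = 0) :
    Integrable (fun u : ℝ => u * gRaw n u * ∏ j, fRaw (x j - u)) ∧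
    ∫ u : ℝ, u * gRaw n u * ∏ j, fRaw (x j - u) = 0 := by
  classical
  obtain ⟨h1, h2⟩ := core_zero n hn x
  have hae : (fun u : ℝ => u * gRaw n u * ∏ j, fRaw (x j - u)) =ᵐ[volume]
      fun u : ℝ => exp (-(∑ j, x j ^ 2) / 2) * (u * |T u| * exp (-(n : ℝ) * (u ^ 2 + (T u) ^ 2))
        * ∏ j, p (x j - u)) := by
    have hne : ∀ᵐ u : ℝ, u ≠ -1 := by
      rw [ae_iff]
      simp
    filter_upwards [hne] with u hu
    rw [integrand_eq n x hx u, if_neg hu, add_zero]
  constructor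
  · exact (integrable_congr hae).2 (h1.const_mul _)
  · rw [integral_congr_ae hae, integral_const_mul, h2, mul_zero]

/-- For every `n ≥ 3` there are probability densities `f`, `g` with `g > 0` everywhere that
satisfy the hyperplane condition (with `c = 0`), although `f` is not almost everywhere equal to a
normal density. -/
theorem result (n : ℕ) (hn : 3 ≤ n) :
    ∃ (f g : ℝ → ℝ) (c : ℝ), (∀ x, 0 ≤ f x) ∧ Integrable f ∧ (∫ x, f x) = 1 ∧
      (∀ x, 0 < g x) ∧ Integrable g ∧ (∫ x, g x) = 1 ∧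
      (∀ x : Fin n → ℝ, ∑ j, x j = 0 →
        Integrable (fun u : ℝ => (u - c) * g u * ∏ j, f (x j - u)) ∧
        (∫ u : ℝ, (u - c) * g u * ∏ j, f (x j - u)) = 0) ∧
      (∀ a σ : ℝ, 0 < σ →
        ¬ (f =ᵐ[volume] fun x => (√(2 * π * σ ^ 2))⁻¹ * exp (-(x - a) ^ 2 / (2 * σ ^ 2)))) := by
  have hn1 : 1 ≤ n := by omega
  have hZf : 0 < ∫ x, fRaw x := pos_integral fRaw_pos integrable_fRaw
  have hZg : 0 < ∫ x, gRaw n x := pos_integral (gRaw_pos n) (integrable_gRaw n hn1)
  set Zf := ∫ x, fRaw x with hZfdef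
  set Zg := ∫ x, gRaw n x with hZgdef
  refine ⟨fun x => Zf⁻¹ * fRaw x, fun x => Zg⁻¹ * gRaw n x, 0,
    fun x => mul_nonneg (inv_pos.2 hZf).le (fRaw_pos x).le, integrable_fRaw.const_mul _, ?_,
    fun x => mul_pos (inv_pos.2 hZg) (gRaw_pos n x), (integrable_gRaw n hn1).const_mul _, ?_, ?_, ?_⟩
  · rw [integral_const_mul, ← hZfdef]
    exact inv_mul_cancel₀ hZf.ne'
  · rw [integral_const_mul, ← hZgdef]
    exact inv_mul_cancel₀ hZg.ne'
  · intro x hx
    obtain ⟨h1, h2⟩ := hyperplane_zero n hn1 x hx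
    have e : (fun u : ℝ => (u - 0) * (Zg⁻¹ * gRaw n u) * ∏ j, (Zf⁻¹ * fRaw (x j - u)))
        = fun u : ℝ => (Zg⁻¹ * (Zf⁻¹) ^ n) * (u * gRaw n u * ∏ j, fRaw (x j - u)) := by
      funext u
      rw [Finset.prod_mul_distrib]
      simp only [Finset.prod_const, Finset.card_univ, Fintype.card_fin, sub_zero]
      ring
    constructor
    · rw [e]; exact h1.const_mul _
    · rw [e, integral_const_mul, h2, mul_zero]
  · intro a σ hσ h
    have hc1 : Continuous fun x => Zf⁻¹ * fRaw x := by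
      unfold fRaw
      exact continuous_const.mul (p_cont.mul (by fun_prop))
    have hc2 : Continuous fun x : ℝ => (√(2 * π * σ ^ 2))⁻¹ * exp (-(x - a) ^ 2 / (2 * σ ^ 2)) := by
      fun_prop
    have heq := (Continuous.ae_eq_iff_eq volume hc1 hc2).1 h
    set K := (√(2 * π * σ ^ 2))⁻¹ with hK
    have hKpos : 0 < K := by
      rw [hK]; positivity
    have e0 := congrFun heq 0
    have e1 := congrFun heq 1
    have e2 := congrFun heq (1 / 2)
    simp only [fRaw] at e0 e1 e2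
    have p0 : p 0 = 3 := by unfold p; norm_num
    have p1 : p 1 = 3 := by
      unfold p
      rw [mul_one, cos_two_pi]; norm_num
    have p2 : p (1 / 2) = 1 := by
      unfold p
      have : 2 * π * (1 / 2) = π := by ring
      rw [this, cos_pi]; norm_num
    rw [p0] at e0
    rw [p1] at e1
    rw [p2] at e2
    -- products
    have hL : (Zf⁻¹ * (3 * exp (-(0 ^ 2) / 2))) * (Zf⁻¹ * (3 * exp (-(1 ^ 2) / 2)))
        = 9 * exp (-(1 / 4)) * (Zf⁻¹ * (1 * exp (-((1 / 2) ^ 2) / 2))) ^ 2 := by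
      have h1 : exp (-(0 ^ 2) / 2) * exp (-(1 ^ 2) / 2)
          = exp (-(1 / 4)) * (exp (-((1 / 2) ^ 2) / 2)) ^ 2 := by
        rw [pow_two (exp (-((1 / 2) ^ 2) / 2)), ← exp_add, ← exp_add, ← exp_add]
        congr 1; norm_num
      calc _ = 9 * Zf⁻¹ ^ 2 * (exp (-(0 ^ 2) / 2) * exp (-(1 ^ 2) / 2)) := by ring
        _ = _ := by rw [h1]; ring
    have hR : (K * exp (-(0 - a) ^ 2 / (2 * σ ^ 2))) * (K * exp (-(1 - a) ^ 2 / (2 * σ ^ 2)))
        = exp (-(1 / (4 * σ ^ 2))) * (K * exp (-(1 / 2 - a) ^ 2 / (2 * σ ^ 2))) ^ 2 := by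
      have h1 : exp (-(0 - a) ^ 2 / (2 * σ ^ 2)) * exp (-(1 - a) ^ 2 / (2 * σ ^ 2))
          = exp (-(1 / (4 * σ ^ 2))) * (exp (-(1 / 2 - a) ^ 2 / (2 * σ ^ 2))) ^ 2 := by
        rw [pow_two (exp (-(1 / 2 - a) ^ 2 / (2 * σ ^ 2))), ← exp_add, ← exp_add, ← exp_add]
        congr 1
        field_simp
        ring
      calc _ = K ^ 2 * (exp (-(0 - a) ^ 2 / (2 * σ ^ 2)) * exp (-(1 - a) ^ 2 / (2 * σ ^ 2))) := by
            ring
        _ = _ := by rw [h1]; ring
    rw [e0, e1, e2, hR] at hL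
    have hq : 0 < (K * exp (-(1 / 2 - a) ^ 2 / (2 * σ ^ 2))) ^ 2 := by positivity
    have h5 : exp (-(1 / (4 * σ ^ 2))) = 9 * exp (-(1 / 4)) := mul_right_cancel₀ hq.ne' hL
    have h6 : exp (-(1 / (4 * σ ^ 2))) ≤ 1 := by
      rw [exp_le_one_iff]
      have : 0 ≤ 1 / (4 * σ ^ 2) := by positivity
      linarith
    have h7 : (3 : ℝ) / 4 ≤ exp (-(1 / 4)) := by
      have := add_one_le_exp (-(1 / 4) : ℝ)
      linarith
    linarith

end Pool.Agent.Results.MP_d643ae_pr.NotNormal
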